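import Mathlib

/-!
# Continuous cocycles over actions of amenable groups which are not limits of coboundaries

The infinite dihedral group acts on a space with two points; the translation subgroup acts
trivially and has opposite displacements at the two points.
-/

set_option autoImplicit false

namespace Pool.Agent.Results.MP_d52620_an.DihedralTwoPoints

open MeasureTheory

open Classical in
/-- `G` is amenable (Følner's condition): for all finite `S ⊆ G` and `ε > 0` there is a nonempty
finite `F ⊆ G` with `|s F \ F| ≤ ε |F|` for all `s ∈ S`. -/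
def IsAmenable (G : Type) [Group G] : Prop :=
  ∀ (S : Finset G) (ε : ℝ), 0 < ε → ∃ F : Finset G, F.Nonempty ∧
    ∀ s ∈ S, (((F.image fun x => s * x) \ F).card : ℝ) ≤ ε * F.card

/-- `S` is a finite symmetric generating set not containing the identity. -/
def IsSymmGenerating {G : Type} [Group G] (S : Finset G) : Prop :=
  (∀ s ∈ S, s⁻¹ ∈ S) ∧ (1 : G) ∉ S ∧ Subgroup.closure (S : Set G) = ⊤

/-- `c` is a (continuous, real) cocycle over the action of `G` on `M`. -/
def IsCocycle {G M : Type} [Group G] [TopologicalSpace M] [MulAction G M] (c : G → M → ℝ) : Prop :=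
  (∀ g, Continuous (c g)) ∧ ∀ g h x, c (g * h) x = c g (h • x) + c h x

/-- `c` is in the closure of the set of the coboundaries `u (g • x) - u x` of the continuous
functions `u`, for the norm `max_{s ∈ S} sup_x |c s x|`. -/
def InClosureOfCoboundaries {G M : Type} [Group G] [TopologicalSpace M] [MulAction G M]
    (S : Finset G) (c : G → M → ℝ) : Prop :=
  ∀ ε : ℝ, 0 < ε → ∃ u : M → ℝ, Continuous u ∧
    ∀ s ∈ S, ∀ x, |c s x - (u (s • x) - u x)| ≤ ε

/-- All the integrals `∫ c g x dμ(x)`, over all the invariant Borel probability measures `μ`,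
vanish. -/
def HasZeroIntegrals {G M : Type} [Group G] [TopologicalSpace M] [MulAction G M]
    (c : G → M → ℝ) : Prop :=
  ∀ (mM : MeasurableSpace M), mM = borel M → ∀ μ : @Measure M mM, @IsProbabilityMeasure M mM μ →
    (∀ g : G, @Measure.map M M mM mM (fun x => g • x) μ = μ) →
    ∀ g : G, @integral M ℝ _ _ mM μ (c g) = 0

/-! ### the infinite dihedral group -/

/-- the group -/
abbrev D : Type := DihedralGroup 0

/-- `(r i)`, as a function of an integer -/
def ri (i : ℤ) : D := DihedralGroup.r (show ZMod 0 from i)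

/-- `(sr i)`, as a function of an integer -/
def si (i : ℤ) : D := DihedralGroup.sr (show ZMod 0 from i)

lemma ri_inj : Function.Injective ri := by
  intro i j h
  exact DihedralGroup.r.inj h

lemma si_inj : Function.Injective si := by
  intro i j h
  exact DihedralGroup.sr.inj h

lemma ri_ne_si (i j : ℤ) : ri i ≠ si j := by
  intro h
  cases h

lemma cases_D (g : D) : (∃ i : ℤ, g = ri i) ∨ ∃ i : ℤ, g = si i := by
  cases g with
  | r i => exact Or.inl ⟨i, rfl⟩
  | sr i => exact Or.inr ⟨i, rfl⟩

lemma ri_mul_ri (i j : ℤ) : ri i * ri j = ri (i + j) := rfl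

lemma ri_mul_si (i j : ℤ) : ri i * si j = si (j - i) := rfl

lemma si_mul_ri (i j : ℤ) : si i * ri j = si (i + j) := rfl

lemma si_mul_si (i j : ℤ) : si i * si j = ri (j - i) := rfl

lemma one_eq : (1 : D) = ri 0 := rfl

open Classical in
/-- the Følner sets -/
noncomputable def fol (n : ℕ) : Finset D :=
  (Finset.Icc (-n : ℤ) n).image ri ∪ (Finset.Icc (-n : ℤ) n).image si

lemma mem_fol_ri (n : ℕ) (i : ℤ) : ri i ∈ fol n ↔ |i| ≤ n := by
  classical
  unfold fol
  rw [Finset.mem_union, Finset.mem_image, Finset.mem_image, abs_le]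
  constructor
  · rintro (⟨j, hj, h⟩ | ⟨j, hj, h⟩)
    · rw [← ri_inj h]
      exact Finset.mem_Icc.1 hj
    · exact absurd h.symm (ri_ne_si _ _)
  · intro h
    exact Or.inl ⟨i, Finset.mem_Icc.2 h, rfl⟩

lemma mem_fol_si (n : ℕ) (i : ℤ) : si i ∈ fol n ↔ |i| ≤ n := by
  classical
  unfold fol
  rw [Finset.mem_union, Finset.mem_image, Finset.mem_image, abs_le]
  constructor
  · rintro (⟨j, hj, h⟩ | ⟨j, hj, h⟩)
    · exact absurd h (ri_ne_si _ _)
    · rw [← si_inj h]
      exact Finset.mem_Icc.1 hj
  · intro h
    exact Or.inr ⟨i, Finset.mem_Icc.2 h, rfl⟩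

lemma card_fol (n : ℕ) : (fol n).card = 2 * (2 * n + 1) := by
  classical
  unfold fol
  rw [Finset.card_union_of_disjoint, Finset.card_image_of_injective _ ri_inj,
    Finset.card_image_of_injective _ si_inj]
  · simp only [Int.card_Icc]
    omega
  · rw [Finset.disjoint_left]
    intro x hx hx'
    obtain ⟨i, -, rfl⟩ := Finset.mem_image.1 hx
    obtain ⟨j, -, h⟩ := Finset.mem_image.1 hx'
    exact ri_ne_si _ _ h.symm

lemma fol_mono {n m : ℕ} (h : n ≤ m) : fol n ⊆ fol m := by
  intro x hx
  rcases cases_D x with ⟨i, rfl⟩ | ⟨i, rfl⟩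
  · rw [mem_fol_ri] at hx ⊢
    exact hx.trans (by exact_mod_cast h)
  · rw [mem_fol_si] at hx ⊢
    exact hx.trans (by exact_mod_cast h)

lemma exists_shift (g : D) : ∃ k : ℕ, ∀ n : ℕ, ∀ x ∈ fol n, g * x ∈ fol (n + k) := by
  rcases cases_D g with ⟨j, rfl⟩ | ⟨j, rfl⟩
  all_goals
    refine ⟨j.natAbs, fun n x hx => ?_⟩
    rcases cases_D x with ⟨i, rfl⟩ | ⟨i, rfl⟩
    all_goals
      simp only [ri_mul_ri, ri_mul_si, si_mul_ri, si_mul_si, mem_fol_ri, mem_fol_si] at hx ⊢
      rw [abs_le] at hx ⊢
      push_cast
      have h1 := le_abs_self j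
      have h2 := neg_abs_le j
      constructor <;> linarith [hx.1, hx.2]

open Classical in
lemma card_image_sdiff_le {G : Type} [Group G] (F F' : Finset G) (s : G) (hF : F ⊆ F')
    (h : ∀ x ∈ F, s * x ∈ F') :
    (((F.image fun x => s * x) \ F).card : ℝ) ≤ F'.card - F.card := by
  have h1 : ((F.image fun x => s * x) \ F) ⊆ F' \ F := by
    apply Finset.sdiff_subset_sdiff _ (le_refl _)
    intro y hy
    obtain ⟨x, hx, rfl⟩ := Finset.mem_image.1 hy
    exact h x hx
  have h2 := Finset.card_le_card h1
  rw [Finset.card_sdiff_of_subset hF] at h2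
  have h3 := Finset.card_le_card hF
  have h4 : (((F.image fun x => s * x) \ F).card : ℝ) ≤ ((F'.card - F.card : ℕ) : ℝ) := by
    exact_mod_cast h2
  rwa [Nat.cast_sub h3] at h4

theorem amenable : IsAmenable D := by
  intro S ε hε
  choose k hk using exists_shift
  let K := S.sup k
  obtain ⟨n, hn⟩ := exists_nat_gt ((4 * K : ℝ) / ε)
  refine ⟨fol n, ?_, ?_⟩
  · rw [← Finset.card_pos, card_fol]
    omega
  · intro s hs
    refine (card_image_sdiff_le (fol n) (fol (n + K)) s (fol_mono (by omega)) ?_).trans ?_
    · intro x hx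
      exact fol_mono (by have := Finset.le_sup (f := k) hs; omega) (hk s n x hx)
    · rw [card_fol, card_fol]
      rw [div_lt_iff₀ hε] at hn
      push_cast
      nlinarith

/-! ### the action and the cocycle -/

/-- the space with two points, `1` and `-1` -/
abbrev M : Type := ({1, -1} : Set ℝ)

/-- the other point -/
def flip (x : M) : M := ⟨-x.1, by
  rcases x.2 with h | h
  · right
    rw [h]
    rfl
  · left
    rw [h]
    exact neg_neg 1⟩

/-- the translations act trivially, the reflections exchange the two points -/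
def act : D → M → M
  | DihedralGroup.r _, x => x
  | DihedralGroup.sr _, x => flip x

lemma act_ri (i : ℤ) (x : M) : act (ri i) x = x := rfl

lemma act_si (i : ℤ) (x : M) : act (si i) x = flip x := rfl

lemma flip_flip (x : M) : flip (flip x) = x := Subtype.ext (neg_neg _)

instance instAct : MulAction D M where
  smul := act
  one_smul := fun x => by
    show act 1 x = x
    rw [one_eq, act_ri]
  mul_smul := fun g h x => by
    show act (g * h) x = act g (act h x)
    rcases cases_D g with ⟨i, rfl⟩ | ⟨i, rfl⟩ <;> rcases cases_D h with ⟨j, rfl⟩ | ⟨j, rfl⟩ <;>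
      simp [ri_mul_ri, ri_mul_si, si_mul_ri, si_mul_si, act_ri, act_si, flip_flip]

instance instFiniteM : Finite M := (Set.toFinite ({1, -1} : Set ℝ)).to_subtype

instance instDiscreteM : DiscreteTopology M := inferInstance

instance instCompactM : CompactSpace M := inferInstance

/-- the cocycle: `c (r i) x = i x = c (sr i) x` -/
def coc : D → M → ℝ
  | DihedralGroup.r i, x => ((show ℤ from i : ℤ) : ℝ) * x.1
  | DihedralGroup.sr i, x => ((show ℤ from i : ℤ) : ℝ) * x.1

lemma coc_ri (i : ℤ) (x : M) : coc (ri i) x = i * x.1 := rfl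

lemma coc_si (i : ℤ) (x : M) : coc (si i) x = i * x.1 := rfl

lemma val_flip (x : M) : (flip x).1 = - x.1 := rfl

lemma smul_ri (i : ℤ) (x : M) : ri i • x = x := rfl

lemma smul_si (i : ℤ) (x : M) : si i • x = flip x := rfl

theorem isCocycle : IsCocycle coc := by
  refine ⟨fun g => continuous_of_discreteTopology, ?_⟩
  intro g h x
  rcases cases_D g with ⟨i, rfl⟩ | ⟨i, rfl⟩ <;> rcases cases_D h with ⟨j, rfl⟩ | ⟨j, rfl⟩ <;>
    simp only [ri_mul_ri, ri_mul_si, si_mul_ri, si_mul_si, coc_ri, coc_si, smul_ri, smul_si,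
      val_flip] <;> push_cast <;> ring

theorem zeroIntegrals : HasZeroIntegrals coc := by
  intro mM hM μ hμ hinv g
  have hmeas : ∀ A : Set M, @MeasurableSet M mM A := by
    intro A
    rw [hM]
    exact MeasurableSpace.measurableSet_generateFrom (isOpen_discrete A)
  clear hM
  have hf : @MeasurableEmbedding M M mM mM (fun x : M => si 0 • x) := by
    refine @MeasurableEmbedding.mk M M mM mM _ (fun a b h => ?_) (fun s _ => hmeas _)
      (fun s _ => hmeas _)
    have h' : flip (flip a) = flip (flip b) := congrArg flip h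
    rwa [flip_flip, flip_flip] at h'
  have key : @integral M ℝ _ _ mM μ (coc g) = - @integral M ℝ _ _ mM μ (coc g) := by
    have h1 : @integral M ℝ _ _ mM μ (coc g) =
        @integral M ℝ _ _ mM (@Measure.map M M mM mM (fun x => si 0 • x) μ) (coc g) := by
      rw [hinv (si 0)]
    refine h1.trans ?_
    rw [@MeasurableEmbedding.integral_map M ℝ _ _ mM μ M mM _ hf, ← @integral_neg M ℝ _ _ mM μ]
    congr 1
    funext x
    rcases cases_D g with ⟨i, rfl⟩ | ⟨i, rfl⟩ <;>
      simp only [coc_ri, coc_si, smul_si, val_flip] <;> ring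
  linarith

/-- **Theorem.** There are a finitely generated amenable group `G` (the infinite dihedral group)
with a finite symmetric generating set `S`, an action of `G` by homeomorphisms on a compact metric
space `M` (with two points) and a cocycle `c` over it all of whose integrals over invariant
probability measures vanish, but which is not in the closure of the continuous coboundaries: it has
distance at least one from all of them. -/
theorem result : ∃ (G : Type) (_ : Group G) (S : Finset G) (M : Type) (_ : MetricSpace M)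
    (_ : MulAction G M) (c : G → M → ℝ),
    IsAmenable G ∧ IsSymmGenerating S ∧ CompactSpace M ∧ (∀ g : G, Continuous fun x : M => g • x) ∧
    IsCocycle c ∧ HasZeroIntegrals c ∧ ¬ InClosureOfCoboundaries S c ∧
    ∀ u : M → ℝ, Continuous u → ∃ s ∈ S, ∃ x, 1 ≤ |c s x - (u (s • x) - u x)| := by
  classical
  let S : Finset D := {ri 1, ri (-1), si 0}
  have hfar : ∀ u : M → ℝ, ∃ s ∈ S, ∃ x, 1 ≤ |coc s x - (u (s • x) - u x)| := by
    intro u
    refine ⟨ri 1, by simp [S], ⟨1, Or.inl rfl⟩, ?_⟩
    rw [coc_ri, smul_ri]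
    simp
  refine ⟨D, inferInstance, S, M, inferInstance, instAct, coc, amenable, ⟨?_, ?_, ?_⟩, inferInstance,
    fun g => continuous_of_discreteTopology, isCocycle, zeroIntegrals, ?_, fun u _ => hfar u⟩
  · intro s hs
    simp only [S, Finset.mem_insert, Finset.mem_singleton] at hs ⊢
    rcases hs with rfl | rfl | rfl
    · right; left; rfl
    · left; rfl
    · right; right; rfl
  · intro h
    simp only [S, Finset.mem_insert, Finset.mem_singleton] at h
    rcases h with h | h | h
    · exact absurd (ri_inj (one_eq.symm.trans h)) (by norm_num)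
    · exact absurd (ri_inj (one_eq.symm.trans h)) (by norm_num)
    · exact ri_ne_si _ _ (one_eq.symm.trans h)
  · rw [Subgroup.eq_top_iff']
    intro g
    have h1 : ri 1 ∈ Subgroup.closure (S : Set D) := Subgroup.subset_closure (by simp [S])
    have h2 : si 0 ∈ Subgroup.closure (S : Set D) := Subgroup.subset_closure (by simp [S])
    have hpow : ∀ i : ℤ, ri 1 ^ i = ri i := by
      intro i
      induction i using Int.induction_on with
      | zero => rfl
      | succ i ih => rw [zpow_add_one, ih, ri_mul_ri]
      | pred i ih =>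
        rw [zpow_sub_one, ih]
        show ri (-i) * ri (-1) = _
        rw [ri_mul_ri]
        rfl
    have h3 : ∀ i : ℤ, ri i ∈ Subgroup.closure (S : Set D) := fun i => by
      rw [← hpow i]
      exact Subgroup.zpow_mem _ h1 i
    rcases cases_D g with ⟨i, rfl⟩ | ⟨i, rfl⟩
    · exact h3 i
    · have h4 : si i = si 0 * ri i := by
        rw [si_mul_ri, zero_add]
      rw [h4]
      exact Subgroup.mul_mem _ h2 (h3 i)
  · intro h
    obtain ⟨u, -, hu⟩ := h (1 / 2) (by norm_num)
    obtain ⟨s, hs, x, hx⟩ := hfar u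
    have := hu s hs x
    linarith

end Pool.Agent.Results.MP_d52620_an.DihedralTwoPoints
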